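import Mathlib

/-! The cut-wire lemma and the gluing lemma for maps into the punctured plane. -/

namespace Pool.Agent.P.MP_892330_gt

open Set Topology

theorem cutwire_univ {Y : Type*} [TopologicalSpace Y] [T2Space Y] [CompactSpace Y]
    {A B : Set Y} (hA : IsClosed A) (hB : IsClosed B)
    (h : ∀ a ∈ A, ∀ b ∈ B, b ∉ connectedComponent a) :
    ∃ S : Set Y, IsClopen S ∧ A ⊆ S ∧ Disjoint S B := by
  have h1 : ∀ a ∈ A, ∃ S : Set Y, IsClopen S ∧ a ∈ S ∧ Disjoint S B := by
    intro a ha
    have H1 := hB.isCompact.inter_iInter_nonempty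
      (fun s : { s : Set Y // IsClopen s ∧ a ∈ s } => (s : Set Y)) fun s => s.2.1.1
    rw [← connectedComponent_eq_iInter_isClopen a] at H1
    by_contra hcon
    push Not at hcon
    obtain ⟨b, hbB, hb⟩ := H1 (fun si => by
      have hc : IsClopen (⋂ U ∈ si, Subtype.val U) := isClopen_biInter_finset fun s _ => s.2.1
      have hm : a ∈ (⋂ U ∈ si, Subtype.val U) := mem_iInter₂.2 fun s _ => s.2.2
      have := hcon _ hc hm
      rw [not_disjoint_iff_nonempty_inter, inter_comm] at this
      exact this)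
    exact h a ha b hbB hb
  choose! S hS using h1
  obtain ⟨t, ht, hcov⟩ := hA.isCompact.elim_nhds_subcover S
    (fun a ha => (hS a ha).1.isOpen.mem_nhds (hS a ha).2.1)
  refine ⟨⋃ a ∈ t, S a, isClopen_biUnion_finset fun a ha => (hS a (ht a ha)).1, hcov, ?_⟩
  simp only [disjoint_iUnion_left]
  exact fun a ha => (hS a (ht a ha)).2.2

theorem cutwire {X : Type*} [TopologicalSpace X] [T2Space X] {S A B : Set X}
    (hS : IsCompact S) (hA : IsClosed A) (hB : IsClosed B)
    (h : ∀ C ⊆ S, IsCompact C → IsConnected C → (C ∩ A).Nonempty → (C ∩ B).Nonempty → False) :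
    ∃ S0 S1 : Set X, IsClosed S0 ∧ IsClosed S1 ∧ S ⊆ S0 ∪ S1 ∧ Disjoint S0 S1 ∧
      Disjoint S0 B ∧ Disjoint S1 A := by
  have : CompactSpace S := isCompact_iff_compactSpace.mp hS
  have hv : Continuous (Subtype.val : S → X) := continuous_subtype_val
  obtain ⟨T, hT, hAT, hTB⟩ := cutwire_univ (hA.preimage hv) (hB.preimage hv) (by
    intro a ha b hb hab
    refine h (Subtype.val '' connectedComponent a) ?_ ?_ ?_ ?_ ?_
    · rintro _ ⟨x, _, rfl⟩; exact x.2
    · exact isClosed_connectedComponent.isCompact.image hv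
    · exact isConnected_connectedComponent.image _ hv.continuousOn
    · exact ⟨a, ⟨a, mem_connectedComponent, rfl⟩, ha⟩
    · exact ⟨b, ⟨b, hab, rfl⟩, hb⟩)
  refine ⟨Subtype.val '' T, Subtype.val '' Tᶜ, (hT.isClosed.isCompact.image hv).isClosed,
    (hT.compl.isClosed.isCompact.image hv).isClosed, ?_, ?_, ?_, ?_⟩
  · intro x hx
    by_cases hxT : (⟨x, hx⟩ : S) ∈ T
    · exact Or.inl ⟨_, hxT, rfl⟩
    · exact Or.inr ⟨_, hxT, rfl⟩
  · rw [Set.disjoint_left]
    rintro _ ⟨x, hx, rfl⟩ ⟨y, hy, hxy⟩
    exact hy (Subtype.ext hxy ▸ hx)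
  · rw [Set.disjoint_left]
    rintro _ ⟨x, hx, rfl⟩ hxB
    exact Set.disjoint_left.mp hTB hx hxB
  · rw [Set.disjoint_left]
    rintro _ ⟨x, hx, rfl⟩ hxA
    exact hx (hAT hxA)

/-- `g` restricted to `A` extends to a continuous map without zeros on `K`. -/
def Good {X : Type*} [TopologicalSpace X] (A : Set X) (g : X → ℂ) (K : Set X) : Prop :=
  ∃ h : X → ℂ, Continuous h ∧ EqOn h g A ∧ ∀ x ∈ K, h x ≠ 0

theorem exists_ext {X : Type*} [TopologicalSpace X] [NormalSpace X] {S : Set X}
    (hS : IsClosed S) {H : X → ℂ} (hH : ContinuousOn H S) :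
    ∃ h : X → ℂ, Continuous h ∧ EqOn h H S := by
  obtain ⟨h, hh⟩ := ContinuousMap.exists_restrict_eq hS
    (⟨S.domRestrict H, hH.domRestrict⟩ : C(S, ℂ))
  refine ⟨h, h.continuous, fun x hx => ?_⟩
  have := congrArg (fun f : C(S, ℂ) => f ⟨x, hx⟩) hh
  exact this

/-- The gluing lemma. -/
theorem good_of_cut {X : Type*} [TopologicalSpace X] [NormalSpace X] {A K : Set X} {g : X → ℂ}
    (hA : IsClosed A) (hK : IsClosed K) (hg : ∀ x ∈ A, g x ≠ 0)
    {h0 h1 : X → ℂ} (c0 : Continuous h0) (c1 : Continuous h1)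
    (e0 : EqOn h0 g A) (e1 : EqOn h1 g A) {w : ℂ} (hw : w ∈ Complex.slitPlane)
    {T0 T1 : Set X} (hT0 : IsClosed T0) (hT1 : IsClosed T1) (hd : Disjoint T0 T1)
    (n0 : ∀ x ∈ K, x ∉ T0 → h0 x ≠ 0) (n1 : ∀ x ∈ K, x ∉ T1 → h1 x ≠ 0)
    (hs : ∀ x ∈ K, x ∉ T0 → x ∉ T1 → w * (h0 x / h1 x) ∈ Complex.slitPlane) :
    Good A g K := by
  obtain ⟨f, hf0, hf1, -⟩ := exists_continuous_zero_one_of_isClosed hT0 hT1 hd
  have hw0 : w ≠ 0 := Complex.slitPlane_ne_zero hw
  set θ : X → ℝ := fun x => max 0 (min 1 (3 * f x - 1)) with hθ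
  have cθ : Continuous θ := by
    have := f.continuous
    fun_prop
  set L : X → ℂ := fun x => Complex.log (w * (h0 x / h1 x)) - Complex.log w with hL
  set G : X → ℂ := fun x => h1 x * Complex.exp ((θ x : ℂ) * L x) with hG
  classical
  set H : X → ℂ := fun x => if 2 / 3 < f x then h0 x else G x with hH
  have hexp : ∀ x, h0 x ≠ 0 → h1 x ≠ 0 → θ x = 1 → G x = h0 x := by
    intro x a0 a1 ht
    have : w * (h0 x / h1 x) ≠ 0 := mul_ne_zero hw0 (div_ne_zero a0 a1)
    simp only [hG, hL, ht, Complex.ofReal_one, one_mul, Complex.exp_sub, Complex.exp_log this,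
      Complex.exp_log hw0]
    field_simp
  have hθ1 : ∀ x, 2 / 3 < f x → θ x = 1 := by
    intro x hx
    simp only [hθ]
    rw [min_eq_left (by linarith), max_eq_right (by norm_num)]
  have hθ0 : ∀ x, f x < 1 / 3 → θ x = 0 := by
    intro x hx
    simp only [hθ]
    rw [min_eq_right (by linarith), max_eq_left (by linarith)]
  have key : ∀ x, h0 x ≠ 0 → h1 x ≠ 0 → w * (h0 x / h1 x) ∈ Complex.slitPlane →
      ContinuousAt H x := by
    intro x a0 a1 a2
    have hGc : ContinuousAt G x := by
      have hq : ContinuousAt (fun y => w * (h0 y / h1 y)) x :=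
        continuousAt_const.mul (c0.continuousAt.div c1.continuousAt a1)
      have hl : ContinuousAt L x := (hq.clog a2).sub continuousAt_const
      have ht : ContinuousAt (fun y => (θ y : ℂ)) x :=
        (Complex.continuous_ofReal.comp cθ).continuousAt
      exact c1.continuousAt.mul ((ht.mul hl).cexp)
    refine hGc.congr ?_
    filter_upwards [c0.continuousAt.eventually_ne a0, c1.continuousAt.eventually_ne a1] with y b0 b1
    simp only [hH]
    split_ifs with hy
    · exact hexp y b0 b1 (hθ1 y hy)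
    · rfl
  have hcont : ContinuousOn H (K ∪ A) := by
    intro x hx
    refine ContinuousAt.continuousWithinAt ?_
    rcases hx with hx | hx
    · by_cases hlo : f x < 1 / 3
      · refine c1.continuousAt.congr ?_
        filter_upwards [f.continuous.continuousAt.eventually_lt continuousAt_const hlo] with y hy
        simp only [hH, hG]
        rw [if_neg (by linarith), hθ0 y hy]
        simp
      · by_cases hhi : 2 / 3 < f x
        · refine c0.continuousAt.congr ?_
          filter_upwards [continuousAt_const.eventually_lt f.continuous.continuousAt hhi] with y hy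
          simp only [hH]
          rw [if_pos hy]
        · have x0 : x ∉ T0 := fun h => by
            have := hf0 h
            simp only [Pi.zero_apply] at this
            linarith
          have x1 : x ∉ T1 := fun h => by
            have := hf1 h
            simp only [Pi.one_apply] at this
            linarith
          exact key x (n0 x hx x0) (n1 x hx x1) (hs x hx x0 x1)
    · have a0 : h0 x ≠ 0 := e0 hx ▸ hg x hx
      have a1 : h1 x ≠ 0 := e1 hx ▸ hg x hx
      refine key x a0 a1 ?_
      rw [e0 hx, e1 hx, div_self (hg x hx), mul_one]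
      exact hw
  obtain ⟨h, hc, he⟩ := exists_ext (hK.union hA) hcont
  refine ⟨h, hc, fun x hx => ?_, fun x hx => ?_⟩
  · rw [he (Or.inr hx)]
    simp only [hH, hG, hL]
    split_ifs
    · exact e0 hx
    · rw [e0 hx, e1 hx, div_self (hg x hx), mul_one, sub_self, mul_zero, Complex.exp_zero, mul_one]
  · rw [he (Or.inl hx)]
    simp only [hH, hG]
    split_ifs with hy
    · refine n0 x hx fun h => ?_
      have := hf0 h
      simp only [Pi.zero_apply] at this
      linarith
    · refine mul_ne_zero (n1 x hx fun h => ?_) (Complex.exp_ne_zero _)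
      have := hf1 h
      simp only [Pi.one_apply] at this
      linarith

end Pool.Agent.P.MP_892330_gt
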