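import Pool.Agent.P.MP_892330_gt.Minimal

/-! Covering dimension at most one versus extension of maps into the punctured plane. -/

namespace Pool.Agent.P.MP_892330_gt

open Set Topology

/-- Covering dimension of `S` at most `n`. -/
def DimLe {X : Type*} [TopologicalSpace X] (S : Set X) (n : ℕ) : Prop :=
  ∀ (m : ℕ) (U : Fin m → Set X), (∀ i, IsOpen (U i)) → S ⊆ ⋃ i, U i →
    ∃ (k : ℕ) (V : Fin k → Set X), (∀ j, IsOpen (V j)) ∧ S ⊆ ⋃ j, V j ∧
      (∀ j, ∃ i, V j ⊆ U i) ∧ ∀ x ∈ S, {j : Fin k | x ∈ V j}.ncard ≤ n + 1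

theorem dimLe_of_closed {X : Type*} [TopologicalSpace X] {K : Set X} (hK : IsClosed K)
    (hne : K.Nonempty) {n : ℕ} (h : DimLe (univ : Set X) n) : DimLe K n := by
  classical
  intro m U hU hcov
  obtain ⟨x0, hx0⟩ := hne
  obtain ⟨i0, -⟩ := mem_iUnion.mp (hcov hx0)
  obtain ⟨k, V, hV, hVc, hVr, hVo⟩ := h (m + 1) (Fin.cons Kᶜ U)
    (fun i => Fin.cases hK.isOpen_compl (fun j => hU j) i) (by
      intro x _
      by_cases hx : x ∈ K
      · obtain ⟨i, hi⟩ := mem_iUnion.mp (hcov hx)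
        exact mem_iUnion.mpr ⟨i.succ, hi⟩
      · exact mem_iUnion.mpr ⟨0, hx⟩)
  refine ⟨k, fun j => if ∃ i, V j ⊆ U i then V j else ∅, fun j => ?_, fun x hx => ?_,
    fun j => ?_, fun x hx => ?_⟩
  · beta_reduce
    split_ifs
    · exact hV j
    · exact isOpen_empty
  · obtain ⟨j, hj⟩ := mem_iUnion.mp (hVc (mem_univ x))
    refine mem_iUnion.mpr ⟨j, ?_⟩
    obtain ⟨i, hi⟩ := hVr j
    have : ∃ i, V j ⊆ U i := by
      revert hi
      refine Fin.cases (fun hi => absurd hx (hi hj)) (fun i hi => ⟨i, hi⟩) i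
    rw [if_pos this]
    exact hj
  · beta_reduce
    split_ifs with hj
    · exact hj
    · exact ⟨i0, empty_subset _⟩
  · refine le_trans (ncard_le_ncard ?_) (hVo x (mem_univ x))
    intro j hj
    simp only [mem_ofPred_eq] at hj ⊢
    split_ifs at hj
    · exact hj
    · exact hj.elim

/-- Three-element open covers suffice to detect dimension at most one. -/
theorem dimLe_one_of_three {X : Type*} [TopologicalSpace X]
    (h : ∀ U1 U2 U3 : Set X, IsOpen U1 → IsOpen U2 → IsOpen U3 → (∀ x, x ∈ U1 ∨ x ∈ U2 ∨ x ∈ U3) →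
      ∃ V1 V2 V3 : Set X, IsOpen V1 ∧ IsOpen V2 ∧ IsOpen V3 ∧ (∀ x, x ∈ V1 ∨ x ∈ V2 ∨ x ∈ V3) ∧
        V1 ⊆ U1 ∧ V2 ⊆ U2 ∧ V3 ⊆ U3 ∧ ∀ x, x ∈ V1 → x ∈ V2 → x ∈ V3 → False) :
    DimLe (univ : Set X) 1 := by
  classical
  intro m U hU hcov
  have main : ∀ s : Finset (Fin m × Fin m), ∃ W : Fin m → Set X, (∀ i, IsOpen (W i)) ∧
      (∀ x, ∃ i, x ∈ W i) ∧ (∀ i, W i ⊆ U i) ∧
      ∀ p ∈ s, p.1 ≠ p.2 → ∀ k, k ≠ p.1 → k ≠ p.2 → ∀ x, x ∈ W p.1 → x ∈ W p.2 → x ∈ W k →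
        False := by
    intro s
    induction s using Finset.induction_on with
    | empty =>
      exact ⟨U, hU, fun x => mem_iUnion.mp (hcov (mem_univ x)), fun _ => subset_rfl, by simp⟩
    | insert p s _ ih =>
      obtain ⟨W, hW, hWc, hWU, hWs⟩ := ih
      by_cases hp : p.1 = p.2
      · refine ⟨W, hW, hWc, hWU, fun r hr hne => ?_⟩
        rcases Finset.mem_insert.mp hr with rfl | hr
        · exact absurd hp hne
        · exact hWs r hr hne
      obtain ⟨V1, V2, V3, o1, o2, o3, hc, s1, s2, s3, he⟩ := h (W p.1) (W p.2)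
        (⋃ l ∈ {l | l ≠ p.1 ∧ l ≠ p.2}, W l) (hW _) (hW _) (isOpen_biUnion fun l _ => hW l) (by
          intro x
          obtain ⟨i, hi⟩ := hWc x
          by_cases h1 : i = p.1
          · exact Or.inl (h1 ▸ hi)
          by_cases h2 : i = p.2
          · exact Or.inr (Or.inl (h2 ▸ hi))
          exact Or.inr (Or.inr (mem_biUnion (show i ∈ {l | l ≠ p.1 ∧ l ≠ p.2} from ⟨h1, h2⟩) hi)))
      set W' : Fin m → Set X := fun l => if l = p.1 then V1 else if l = p.2 then V2 else W l ∩ V3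
        with hW'
      have e1 : W' p.1 = V1 := by simp [hW']
      have e2 : W' p.2 = V2 := by simp [hW', Ne.symm hp]
      have e3 : ∀ l, l ≠ p.1 → l ≠ p.2 → W' l = W l ∩ V3 := by
        intro l a b
        simp [hW', a, b]
      have sub : ∀ l, W' l ⊆ W l := by
        intro l
        by_cases a : l = p.1
        · rw [a, e1]; exact s1
        by_cases b : l = p.2
        · rw [b, e2]; exact s2
        rw [e3 l a b]; exact inter_subset_left
      refine ⟨W', fun l => ?_, fun x => ?_, fun l => (sub l).trans (hWU l), fun r hr hne => ?_⟩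
      · by_cases a : l = p.1
        · rw [a, e1]; exact o1
        by_cases b : l = p.2
        · rw [b, e2]; exact o2
        rw [e3 l a b]; exact (hW l).inter o3
      · rcases hc x with hx | hx | hx
        · exact ⟨p.1, e1 ▸ hx⟩
        · exact ⟨p.2, e2 ▸ hx⟩
        · obtain ⟨l, hl, hxl⟩ := mem_iUnion₂.mp (s3 hx)
          exact ⟨l, by rw [e3 l hl.1 hl.2]; exact ⟨hxl, hx⟩⟩
      · rcases Finset.mem_insert.mp hr with rfl | hr
        · intro k a b x x1 x2 x3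
          rw [e1] at x1
          rw [e2] at x2
          rw [e3 k a b] at x3
          exact he x x1 x2 x3.2
        · intro k a b x x1 x2 x3
          exact hWs r hr hne k a b x (sub _ x1) (sub _ x2) (sub _ x3)
  obtain ⟨W, hW, hWc, hWU, hWs⟩ := main Finset.univ
  refine ⟨m, W, hW, fun x _ => mem_iUnion.mpr (hWc x), fun j => ⟨j, hWU j⟩, fun x _ => ?_⟩
  by_contra hlt
  push Not at hlt
  obtain ⟨a, ha, b, hb, c, hc, hab, hac, hbc⟩ := (two_lt_ncard (toFinite _)).mp hlt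
  exact hWs (a, b) (Finset.mem_univ _) hab c hac.symm hbc.symm x ha hb hc

theorem exists_bump {X : Type*} [MetricSpace X] {U : Set X} (hU : IsOpen U) :
    ∃ f : X → ℝ, Continuous f ∧ (∀ x, 0 ≤ f x) ∧ ∀ x, f x = 0 ↔ x ∉ U := by
  by_cases h : (Uᶜ).Nonempty
  · refine ⟨fun x => Metric.infDist x Uᶜ, Metric.continuous_infDist_pt _,
      fun x => Metric.infDist_nonneg, fun x => ?_⟩
    rw [← hU.isClosed_compl.mem_iff_infDist_zero h]
    rfl
  · refine ⟨fun _ => 1, continuous_const, fun _ => zero_le_one, fun x => ?_⟩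
    simp only [one_ne_zero, false_iff, not_not]
    by_contra hx
    exact h ⟨x, hx⟩

/-- The point of the plane with triangle coordinates `a, b, c`. -/
noncomputable def tri (a b c : ℝ) : ℂ := ((a - c : ℝ) : ℂ) + ((b - c : ℝ) : ℂ) * Complex.I

theorem tri_re (a b c : ℝ) : (tri a b c).re = a - c := by simp [tri]

theorem tri_im (a b c : ℝ) : (tri a b c).im = b - c := by simp [tri]

theorem tri_eq_zero {a b c : ℝ} (h : tri a b c = 0) : a = c ∧ b = c := by
  have h1 := tri_re a b c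
  have h2 := tri_im a b c
  rw [h] at h1 h2
  simp only [Complex.zero_re, Complex.zero_im] at h1 h2
  constructor <;> linarith

theorem continuous_tri {X : Type*} [TopologicalSpace X] {f1 f2 f3 : X → ℝ} (c1 : Continuous f1)
    (c2 : Continuous f2) (c3 : Continuous f3) : Continuous fun x => tri (f1 x) (f2 x) (f3 x) := by
  unfold tri
  fun_prop

theorem shrink_of_good {X : Type*} [TopologicalSpace X] {U1 U2 U3 : Set X} {f1 f2 f3 : X → ℝ}
    (p1 : ∀ x, 0 ≤ f1 x) (p2 : ∀ x, 0 ≤ f2 x) (p3 : ∀ x, 0 ≤ f3 x)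
    (z1 : ∀ x, f1 x = 0 ↔ x ∉ U1) (z2 : ∀ x, f2 x = 0 ↔ x ∉ U2) (z3 : ∀ x, f3 x = 0 ↔ x ∉ U3)
    (h : Good (U1ᶜ ∪ U2ᶜ ∪ U3ᶜ) (fun x => tri (f1 x) (f2 x) (f3 x)) univ) :
    ∃ V1 V2 V3 : Set X, IsOpen V1 ∧ IsOpen V2 ∧ IsOpen V3 ∧ (∀ x, x ∈ V1 ∨ x ∈ V2 ∨ x ∈ V3) ∧
        V1 ⊆ U1 ∧ V2 ⊆ U2 ∧ V3 ⊆ U3 ∧ ∀ x, x ∈ V1 → x ∈ V2 → x ∈ V3 → False := by
  obtain ⟨h, hc, he, hn⟩ := h
  have cre : Continuous fun x => (h x).re := Complex.continuous_re.comp hc
  have cim : Continuous fun x => (h x).im := Complex.continuous_im.comp hc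
  refine ⟨{x | 0 < (h x).re} ∪ {x | (h x).im < (h x).re},
    {x | 0 < (h x).im} ∪ {x | (h x).re < (h x).im},
    {x | (h x).re < 0} ∪ {x | (h x).im < 0},
    (isOpen_lt continuous_const cre).union (isOpen_lt cim cre),
    (isOpen_lt continuous_const cim).union (isOpen_lt cre cim),
    (isOpen_lt cre continuous_const).union (isOpen_lt cim continuous_const), ?_, ?_, ?_, ?_, ?_⟩
  · intro x
    by_contra hx
    simp only [mem_union, mem_ofPred_eq, not_or, not_lt] at hx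
    apply hn x (mem_univ x)
    apply Complex.ext
    · simp only [Complex.zero_re]; linarith [hx.1.1, hx.2.2.1]
    · simp only [Complex.zero_im]; linarith [hx.2.1.1, hx.2.2.2]
  · intro x hx
    by_contra hU
    have e := he (Or.inl (Or.inl hU))
    simp only [mem_union, mem_ofPred_eq, e, tri_re, tri_im, (z1 x).mpr hU] at hx
    rcases hx with hx | hx <;> linarith [p2 x, p3 x]
  · intro x hx
    by_contra hU
    have e := he (Or.inl (Or.inr hU))
    simp only [mem_union, mem_ofPred_eq, e, tri_re, tri_im, (z2 x).mpr hU] at hx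
    rcases hx with hx | hx <;> linarith [p1 x, p3 x]
  · intro x hx
    by_contra hU
    have e := he (Or.inr hU)
    simp only [mem_union, mem_ofPred_eq, e, tri_re, tri_im, (z3 x).mpr hU] at hx
    rcases hx with hx | hx <;> linarith [p1 x, p2 x]
  · intro x h1 h2 h3
    simp only [mem_union, mem_ofPred_eq] at h1 h2 h3
    rcases h1 with h1 | h1 <;> rcases h2 with h2 | h2 <;> rcases h3 with h3 | h3 <;> linarith

theorem good_of_dimLe_one {X : Type*} [MetricSpace X] {K U1 U2 U3 : Set X} {f1 f2 f3 : X → ℝ}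
    (hK : IsClosed K) (o1 : IsOpen U1) (o2 : IsOpen U2) (o3 : IsOpen U3)
    (hc : ∀ x, x ∈ U1 ∨ x ∈ U2 ∨ x ∈ U3)
    (c1 : Continuous f1) (c2 : Continuous f2) (c3 : Continuous f3)
    (p1 : ∀ x, 0 ≤ f1 x) (p2 : ∀ x, 0 ≤ f2 x) (p3 : ∀ x, 0 ≤ f3 x)
    (z1 : ∀ x, f1 x = 0 ↔ x ∉ U1) (z2 : ∀ x, f2 x = 0 ↔ x ∉ U2) (z3 : ∀ x, f3 x = 0 ↔ x ∉ U3)
    (hD : DimLe K 1) :
    Good (U1ᶜ ∪ U2ᶜ ∪ U3ᶜ) (fun x => tri (f1 x) (f2 x) (f3 x)) K := by
  classical
  obtain ⟨k, V, hV, hVc, hVr, hVo⟩ := hD 3 ![U1, U2, U3]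
    (fun i => by fin_cases i <;> assumption) (by
      intro x _
      rcases hc x with h | h | h
      · exact mem_iUnion.mpr ⟨0, h⟩
      · exact mem_iUnion.mpr ⟨1, h⟩
      · exact mem_iUnion.mpr ⟨2, h⟩)
  choose c hcV using hVr
  set V' : Fin 3 → Set X := fun i => ⋃ j ∈ {j | c j = i}, V j with hV'
  have oV' : ∀ i, IsOpen (V' i) := fun i => isOpen_biUnion fun j _ => hV j
  have sV' : ∀ i, V' i ⊆ ![U1, U2, U3] i := by
    intro i x hx
    obtain ⟨j, hj, hxj⟩ := mem_iUnion₂.mp hx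
    exact (show c j = i from hj) ▸ hcV j hxj
  have cV' : ∀ x ∈ K, x ∈ V' 0 ∨ x ∈ V' 1 ∨ x ∈ V' 2 := by
    intro x hx
    obtain ⟨j, hj⟩ := mem_iUnion.mp (hVc hx)
    have : x ∈ V' (c j) := mem_biUnion (show j ∈ {j' | c j' = c j} from rfl) hj
    generalize c j = i at this
    fin_cases i
    · exact Or.inl this
    · exact Or.inr (Or.inl this)
    · exact Or.inr (Or.inr this)
  have eV' : ∀ x ∈ K, x ∈ V' 0 → x ∈ V' 1 → x ∈ V' 2 → False := by
    intro x hx a b d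
    obtain ⟨j0, e0, x0⟩ := mem_iUnion₂.mp a
    obtain ⟨j1, e1, x1⟩ := mem_iUnion₂.mp b
    obtain ⟨j2, e2, x2⟩ := mem_iUnion₂.mp d
    have e0 : c j0 = 0 := e0
    have e1 : c j1 = 1 := e1
    have e2 : c j2 = 2 := e2
    have : 2 < {j : Fin k | x ∈ V j}.ncard := (two_lt_ncard (toFinite _)).mpr
      ⟨j0, x0, j1, x1, j2, x2, fun h => by rw [h, e1] at e0; exact absurd e0 (by decide),
        fun h => by rw [h, e2] at e0; exact absurd e0 (by decide),
        fun h => by rw [h, e2] at e1; exact absurd e1 (by decide)⟩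
    have := hVo x hx
    omega
  obtain ⟨g1, d1, q1, y1⟩ := exists_bump (oV' 0)
  obtain ⟨g2, d2, q2, y2⟩ := exists_bump (oV' 1)
  obtain ⟨g3, d3, q3, y3⟩ := exists_bump (oV' 2)
  have s1 : V' 0 ⊆ U1 := sV' 0
  have s2 : V' 1 ⊆ U2 := sV' 1
  have s3 : V' 2 ⊆ U3 := sV' 2
  set F : X × ℝ → ℂ := fun y => tri (y.2 * f1 y.1 + (1 - y.2) * g1 y.1)
    (y.2 * f2 y.1 + (1 - y.2) * g2 y.1) (y.2 * f3 y.1 + (1 - y.2) * g3 y.1) with hF
  have cF : Continuous F := continuous_tri (by fun_prop) (by fun_prop) (by fun_prop)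
  set B : Set X := Prod.fst '' {y : X × Icc (0 : ℝ) 1 | y.1 ∈ K ∧ F (y.1, y.2) = 0} with hB
  have hBc : IsClosed B := by
    refine isClosedMap_fst_of_compactSpace _ ?_
    refine (hK.preimage continuous_fst).inter (isClosed_eq ?_ continuous_const)
    exact cF.comp (by fun_prop)
  have hAc : IsClosed (U1ᶜ ∪ U2ᶜ ∪ U3ᶜ) :=
    (o1.isClosed_compl.union o2.isClosed_compl).union o3.isClosed_compl
  have pos : ∀ {a b t : ℝ}, 0 ≤ a → 0 ≤ b → a ≠ 0 → b ≠ 0 → 0 ≤ t → t ≤ 1 →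
      t * a + (1 - t) * b ≠ 0 := by
    intro a b t ha hb ha' hb' h0 h1
    have ha'' : 0 < a := lt_of_le_of_ne ha (Ne.symm ha')
    have hb'' : 0 < b := lt_of_le_of_ne hb (Ne.symm hb')
    rcases eq_or_lt_of_le h0 with rfl | h0
    · simpa using hb'
    · have := mul_pos h0 ha''
      have := mul_nonneg (sub_nonneg.mpr h1) hb
      linarith
  have hBA : Disjoint B (U1ᶜ ∪ U2ᶜ ∪ U3ᶜ) := by
    rw [Set.disjoint_left]
    rintro _ ⟨⟨x, t, t0, t1⟩, ⟨hx, hFx⟩, rfl⟩ hA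
    obtain ⟨e1, e2⟩ := tri_eq_zero hFx
    simp only at e1 e2 hx hA
    have all0 : t * f1 x + (1 - t) * g1 x = 0 ∧ t * f2 x + (1 - t) * g2 x = 0 ∧
        t * f3 x + (1 - t) * g3 x = 0 := by
      rcases hA with (hA | hA) | hA
      · have a := (z1 x).mpr hA
        have b := (y1 x).mpr fun h => hA (s1 h)
        rw [a, b] at e1 ⊢
        refine ⟨by ring, by linarith, by linarith⟩
      · have a := (z2 x).mpr hA
        have b := (y2 x).mpr fun h => hA (s2 h)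
        rw [a, b] at e2 ⊢
        refine ⟨by linarith, by ring, by linarith⟩
      · have a := (z3 x).mpr hA
        have b := (y3 x).mpr fun h => hA (s3 h)
        rw [a, b] at e1 e2 ⊢
        refine ⟨by linarith, by linarith, by ring⟩
    rcases cV' x hx with h | h | h
    · exact pos (p1 x) (q1 x) (fun a => (z1 x).mp a (s1 h)) (fun a => (y1 x).mp a h) t0 t1 all0.1
    · exact pos (p2 x) (q2 x) (fun a => (z2 x).mp a (s2 h)) (fun a => (y2 x).mp a h) t0 t1
        all0.2.1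
    · exact pos (p3 x) (q3 x) (fun a => (z3 x).mp a (s3 h)) (fun a => (y3 x).mp a h) t0 t1
        all0.2.2
  obtain ⟨θ, hθ0, hθ1, hθ⟩ := exists_continuous_zero_one_of_isClosed hBc hAc hBA
  refine ⟨fun x => F (x, θ x), cF.comp (continuous_id.prodMk θ.continuous), fun x hx => ?_,
    fun x hx hz => ?_⟩
  · have := hθ1 hx
    simp only [Pi.one_apply] at this
    simp [hF, this]
  · have hxB : x ∈ B := ⟨(x, ⟨θ x, hθ x⟩), ⟨hx, hz⟩, rfl⟩
    have h0 := hθ0 hxB
    simp only [Pi.zero_apply] at h0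
    obtain ⟨e1, e2⟩ := tri_eq_zero hz
    simp only [h0, zero_mul, sub_zero, one_mul, zero_add] at e1 e2
    have hne : g3 x ≠ 0 := by
      rcases cV' x hx with h | h | h
      · exact e1 ▸ fun a => (y1 x).mp a h
      · exact e2 ▸ fun a => (y2 x).mp a h
      · exact fun a => (y3 x).mp a h
    refine eV' x hx ?_ ?_ ?_
    · by_contra h
      exact hne (e1 ▸ (y1 x).mpr h)
    · by_contra h
      exact hne (e2 ▸ (y2 x).mpr h)
    · by_contra h
      exact hne ((y3 x).mpr h)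

/-- An atriodic compact metric space of dimension at least two contains an indecomposable
continuum of dimension at least two. -/
theorem exists_indecomposable {X : Type*} [MetricSpace X] [CompactSpace X] (hX : Atriodic X)
    (hD : ¬ DimLe (univ : Set X) 1) :
    ∃ K : Set X, IsCompact K ∧ IsConnected K ∧ ¬ DimLe K 1 ∧
      ∀ P Q : Set X, IsCompact P → IsConnected P → IsCompact Q → P ∪ Q = K → P = K ∨ Q = K := by
  obtain ⟨U1, U2, U3, o1, o2, o3, hc, hno⟩ : ∃ U1 U2 U3 : Set X, IsOpen U1 ∧ IsOpen U2 ∧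
      IsOpen U3 ∧ (∀ x, x ∈ U1 ∨ x ∈ U2 ∨ x ∈ U3) ∧
      ¬ ∃ V1 V2 V3 : Set X, IsOpen V1 ∧ IsOpen V2 ∧ IsOpen V3 ∧ (∀ x, x ∈ V1 ∨ x ∈ V2 ∨ x ∈ V3) ∧
        V1 ⊆ U1 ∧ V2 ⊆ U2 ∧ V3 ⊆ U3 ∧ ∀ x, x ∈ V1 → x ∈ V2 → x ∈ V3 → False := by
    by_contra hcon
    refine hD (dimLe_one_of_three fun U1 U2 U3 o1 o2 o3 hc => ?_)
    by_contra h
    exact hcon ⟨U1, U2, U3, o1, o2, o3, hc, h⟩
  obtain ⟨f1, c1, p1, z1⟩ := exists_bump o1
  obtain ⟨f2, c2, p2, z2⟩ := exists_bump o2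
  obtain ⟨f3, c3, p3, z3⟩ := exists_bump o3
  have hAc : IsClosed (U1ᶜ ∪ U2ᶜ ∪ U3ᶜ) :=
    (o1.isClosed_compl.union o2.isClosed_compl).union o3.isClosed_compl
  have hg : ∀ x ∈ U1ᶜ ∪ U2ᶜ ∪ U3ᶜ, tri (f1 x) (f2 x) (f3 x) ≠ 0 := by
    intro x hA hz
    obtain ⟨e1, e2⟩ := tri_eq_zero hz
    have h3 : f3 x = 0 := by
      rcases hA with (hA | hA) | hA
      · exact e1 ▸ (z1 x).mpr hA
      · exact e2 ▸ (z2 x).mpr hA
      · exact (z3 x).mpr hA
    rcases hc x with h | h | h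
    · exact (z1 x).mp (e1.trans h3) h
    · exact (z2 x).mp (e2.trans h3) h
    · exact (z3 x).mp h3 h
  obtain ⟨K, hK, hbad, hmin⟩ := exists_minimal
    (fun h => hno (shrink_of_good p1 p2 p3 z1 z2 z3 h))
  exact ⟨K, hK.isCompact, connected_of_minimal (continuous_tri c1 c2 c3) hK hbad hmin,
    fun h => hbad (good_of_dimLe_one hK o1 o2 o3 hc c1 c2 c3 p1 p2 p3 z1 z2 z3 h),
    fun P Q hP hPc hQ hPQ => indecomposable_of_minimal hX hAc hg hK hbad hmin hP hPc hQ hPQ⟩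

end Pool.Agent.P.MP_892330_gt
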