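import Pool.Agent.P.MP_892330_gt.Cut

/-! A minimal closed set over which a map does not extend is an indecomposable continuum,
provided the space contains no triod. -/

namespace Pool.Agent.P.MP_892330_gt

open Set Topology

/-- The space contains no triod. -/
def Atriodic (X : Type*) [TopologicalSpace X] : Prop :=
  ¬ ∃ T Z A B C : Set X, IsCompact T ∧ IsConnected T ∧ IsCompact Z ∧ IsConnected Z ∧
          Z ⊆ T ∧ T \ Z = A ∪ B ∪ C ∧ A.Nonempty ∧ B.Nonempty ∧ C.Nonempty ∧
          Disjoint (closure A) B ∧ Disjoint A (closure B) ∧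
          Disjoint (closure A) C ∧ Disjoint A (closure C) ∧
          Disjoint (closure B) C ∧ Disjoint B (closure C)

theorem no_three_arms {X : Type*} [TopologicalSpace X] [T2Space X] (hX : Atriodic X)
    {P C1 C2 C3 : Set X} (hP : IsCompact P) (hPc : IsConnected P)
    (k1 : IsCompact C1) (k2 : IsCompact C2) (k3 : IsCompact C3)
    (c1 : IsConnected C1) (c2 : IsConnected C2) (c3 : IsConnected C3)
    (m1 : (P ∩ C1).Nonempty) (m2 : (P ∩ C2).Nonempty) (m3 : (P ∩ C3).Nonempty)
    (o1 : (C1 \ P).Nonempty) (o2 : (C2 \ P).Nonempty) (o3 : (C3 \ P).Nonempty)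
    (d12 : Disjoint C1 C2) (d13 : Disjoint C1 C3) (d23 : Disjoint C2 C3) : False := by
  apply hX
  have s1 : closure (C1 \ P) ⊆ C1 := closure_minimal sdiff_subset k1.isClosed
  have s2 : closure (C2 \ P) ⊆ C2 := closure_minimal sdiff_subset k2.isClosed
  have s3 : closure (C3 \ P) ⊆ C3 := closure_minimal sdiff_subset k3.isClosed
  refine ⟨P ∪ C1 ∪ C2 ∪ C3, P, C1 \ P, C2 \ P, C3 \ P, ((hP.union k1).union k2).union k3, ?_,
    hP, hPc, ?_, ?_, o1, o2, o3, d12.mono s1 sdiff_subset, d12.mono sdiff_subset s2,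
    d13.mono s1 sdiff_subset, d13.mono sdiff_subset s3, d23.mono s2 sdiff_subset,
    d23.mono sdiff_subset s3⟩
  · refine IsConnected.union ?_ (IsConnected.union ?_ (IsConnected.union m1 hPc c1) c2) c3
    · exact m3.mono (inter_subset_inter_left _ (subset_union_left.trans subset_union_left))
    · exact m2.mono (inter_subset_inter_left _ subset_union_left)
  · exact (subset_union_left.trans subset_union_left).trans subset_union_left
  · ext x
    simp only [mem_sdiff, mem_union]
    tauto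

theorem exists_minimal {X : Type*} [TopologicalSpace X] [CompactSpace X] {A : Set X} {g : X → ℂ}
    (h : ¬ Good A g univ) :
    ∃ K : Set X, IsClosed K ∧ ¬ Good A g K ∧
      ∀ K' : Set X, IsClosed K' → K' ⊆ K → K' ≠ K → Good A g K' := by
  obtain ⟨K, -, hK⟩ := zorn_superset_nonempty {K : Set X | IsClosed K ∧ ¬ Good A g K}
    (by
      intro c hc hchain hne
      refine ⟨⋂₀ c, ⟨isClosed_sInter fun s hs => (hc hs).1, ?_⟩, fun s hs => sInter_subset_of_mem hs⟩
      rintro ⟨h, hcont, he, hn⟩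
      have : Nonempty c := hne.to_subtype
      have hz : IsClosed {x | h x = 0} := isClosed_eq hcont continuous_const
      obtain ⟨i, hi⟩ := hz.isCompact.elim_directed_family_closed (fun i : c => (i : Set X))
        (fun i => (hc i.2).1) (by
          rw [eq_empty_iff_forall_notMem]
          rintro x ⟨hx0, hx⟩
          rw [← sInter_eq_iInter] at hx
          exact hn x hx hx0) (by
          intro i j
          rcases hchain.total i.2 j.2 with hij | hij
          · exact ⟨i, subset_rfl, hij⟩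
          · exact ⟨j, hij, subset_rfl⟩)
      refine (hc i.2).2 ⟨h, hcont, he, fun x hx hx0 => ?_⟩
      have : x ∈ ({x | h x = 0} ∩ (i : Set X)) := ⟨hx0, hx⟩
      rw [hi] at this
      exact this) univ ⟨isClosed_univ, h⟩
  refine ⟨K, hK.prop.1, hK.prop.2, fun K' hK' hsub hne => ?_⟩
  by_contra hcon
  exact hne (subset_antisymm hsub (hK.le_of_le ⟨hK', hcon⟩ hsub))

theorem connected_of_minimal {X : Type*} [TopologicalSpace X] [NormalSpace X] {A K : Set X}
    {g : X → ℂ} (hg : Continuous g) (hK : IsClosed K) (hbad : ¬ Good A g K)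
    (hmin : ∀ K' : Set X, IsClosed K' → K' ⊆ K → K' ≠ K → Good A g K') : IsConnected K := by
  refine ⟨?_, ?_⟩
  · rw [nonempty_iff_ne_empty]
    rintro rfl
    exact hbad ⟨g, hg, fun _ _ => rfl, fun x hx => hx.elim⟩
  · rw [isPreconnected_iff_subset_of_disjoint_closed]
    intro u v hu hv hcov hdisj
    by_contra hcon
    push Not at hcon
    obtain ⟨h0, c0, e0, n0⟩ := hmin (K ∩ u) (hK.inter hu) inter_subset_left
      (fun h => hcon.1 (h ▸ inter_subset_right))
    obtain ⟨h1, c1, e1, n1⟩ := hmin (K ∩ v) (hK.inter hv) inter_subset_left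
      (fun h => hcon.2 (h ▸ inter_subset_right))
    obtain ⟨f, hf0, hf1, -⟩ := exists_continuous_zero_one_of_isClosed (hK.inter hu) (hK.inter hv)
      (by
        rw [Set.disjoint_left]
        rintro x ⟨hx, hxu⟩ ⟨-, hxv⟩
        have : x ∈ K ∩ (u ∩ v) := ⟨hx, hxu, hxv⟩
        rw [hdisj] at this
        exact this)
    refine hbad ⟨fun x => (1 - (f x : ℂ)) * h0 x + (f x : ℂ) * h1 x, ?_, fun x hx => ?_,
      fun x hx => ?_⟩
    · have := f.continuous
      fun_prop
    · simp only [e0 hx, e1 hx]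
      ring
    · rcases hcov hx with hxu | hxv
      · have := hf0 ⟨hx, hxu⟩
        simp only [Pi.zero_apply] at this
        simpa [this] using n0 x ⟨hx, hxu⟩
      · have := hf1 ⟨hx, hxv⟩
        simp only [Pi.one_apply] at this
        simpa [this] using n1 x ⟨hx, hxv⟩

theorem indecomposable_of_minimal {X : Type*} [TopologicalSpace X] [T2Space X] [CompactSpace X]
    (hX : Atriodic X) {A K : Set X} {g : X → ℂ} (hA : IsClosed A) (hg : ∀ x ∈ A, g x ≠ 0)
    (hK : IsClosed K) (hbad : ¬ Good A g K)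
    (hmin : ∀ K' : Set X, IsClosed K' → K' ⊆ K → K' ≠ K → Good A g K')
    {P Q : Set X} (hP : IsCompact P) (hPc : IsConnected P) (hQ : IsCompact Q)
    (hPQ : P ∪ Q = K) : P = K ∨ Q = K := by
  by_contra hcon
  push Not at hcon
  have hPK : P ⊆ K := hPQ ▸ subset_union_left
  have hQK : Q ⊆ K := hPQ ▸ subset_union_right
  obtain ⟨p, hpK, hpQ⟩ : ∃ p ∈ K, p ∉ Q := by
    by_contra h
    push Not at h
    exact hcon.2 (subset_antisymm hQK h)
  obtain ⟨q, hqK, hqP⟩ : ∃ q ∈ K, q ∉ P := by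
    by_contra h
    push Not at h
    exact hcon.1 (subset_antisymm hPK h)
  obtain ⟨V0, hpV, hV0, hV0Q⟩ : ∃ V : Set X, p ∈ V ∧ IsOpen V ∧ closure V ⊆ Qᶜ := by
    obtain ⟨V, o, a, b⟩ := normal_exists_closure_subset (isClosed_singleton (x := p))
      hQ.isClosed.isOpen_compl (singleton_subset_iff.mpr hpQ)
    exact ⟨V, a rfl, o, b⟩
  obtain ⟨V1, hqV, hV1, hV1P⟩ : ∃ V : Set X, q ∈ V ∧ IsOpen V ∧ closure V ⊆ Pᶜ := by
    obtain ⟨V, o, a, b⟩ := normal_exists_closure_subset (isClosed_singleton (x := q))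
      hP.isClosed.isOpen_compl (singleton_subset_iff.mpr hqP)
    exact ⟨V, a rfl, o, b⟩
  obtain ⟨h0, c0, e0, n0⟩ := hmin (K \ V0) (hK.sdiff hV0) sdiff_subset
    (fun h => (h.symm ▸ hpK : p ∈ K \ V0).2 hpV)
  obtain ⟨h1, c1, e1, n1⟩ := hmin (K \ V1) (hK.sdiff hV1) sdiff_subset
    (fun h => (h.symm ▸ hqK : q ∈ K \ V1).2 hqV)
  set N : Set X := (K \ V0) ∩ (K \ V1) with hN
  have hNc : IsClosed N := (hK.sdiff hV0).inter (hK.sdiff hV1)
  set S0 : Set X := K ∩ closure V0 with hS0
  set S1 : Set X := K ∩ closure V1 with hS1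
  have hS0c : IsClosed S0 := hK.inter isClosed_closure
  have hS1c : IsClosed S1 := hK.inter isClosed_closure
  have hS0P : S0 ⊆ P := fun x hx => ((hPQ.symm ▸ hx.1 : x ∈ P ∪ Q)).resolve_right (hV0Q hx.2)
  have hS01 : Disjoint S0 S1 := Set.disjoint_left.mpr fun x h0 h1 => hV1P h1.2 (hS0P h0)
  set W : ℂ → Set X := fun w => N ∩ (fun x => w * (h0 x / h1 x)) ⁻¹' Complex.slitPlaneᶜ with hW
  have hWc : ∀ w, IsClosed (W w) := by
    intro w
    refine ContinuousOn.preimage_isClosed_of_isClosed ?_ hNc Complex.isOpen_slitPlane.isClosed_compl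
    exact continuousOn_const.mul (c0.continuousOn.div c1.continuousOn fun x hx => n1 x hx.2)
  have cross : ∀ w ∈ Complex.slitPlane, ∃ C ⊆ W w, IsCompact C ∧ IsConnected C ∧
      (C ∩ S0).Nonempty ∧ (C ∩ S1).Nonempty := by
    intro w hw
    by_contra hno
    obtain ⟨W0, W1, k0, k1, hcov, hd, d0, d1⟩ := cutwire (hWc w).isCompact hS0c hS1c
      (fun C a b c d e => hno ⟨C, a, b, c, d, e⟩)
    refine hbad (good_of_cut hA hK hg c0 c1 e0 e1 hw (hS0c.union k0) (hS1c.union k1) ?_ ?_ ?_ ?_)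
    · simp only [disjoint_union_left, disjoint_union_right]
      exact ⟨⟨hS01, d0⟩, d1.symm, hd⟩
    · exact fun x hx hx0 => n0 x ⟨hx, fun h => hx0 (Or.inl ⟨hx, subset_closure h⟩)⟩
    · exact fun x hx hx1 => n1 x ⟨hx, fun h => hx1 (Or.inl ⟨hx, subset_closure h⟩)⟩
    · intro x hx hx0 hx1
      by_contra hs
      have : x ∈ W w := ⟨⟨⟨hx, fun h => hx0 (Or.inl ⟨hx, subset_closure h⟩)⟩,
        ⟨hx, fun h => hx1 (Or.inl ⟨hx, subset_closure h⟩)⟩⟩, hs⟩
      rcases hcov this with h | h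
      · exact hx0 (Or.inr h)
      · exact hx1 (Or.inr h)
  obtain ⟨C1, s1, k1, d1, a1, b1⟩ := cross 1 Complex.one_mem_slitPlane
  obtain ⟨C2, s2, k2, d2, a2, b2⟩ := cross Complex.I (by simp [Complex.mem_slitPlane_iff])
  obtain ⟨C3, s3, k3, d3, a3, b3⟩ := cross (-Complex.I) (by simp [Complex.mem_slitPlane_iff])
  have hne : ∀ x ∈ N, h0 x / h1 x ≠ 0 := fun x hx => div_ne_zero (n0 x hx.1) (n1 x hx.2)
  have meet : ∀ C : Set X, (C ∩ S0).Nonempty → (P ∩ C).Nonempty :=
    fun C ⟨x, hx, hx0⟩ => ⟨x, hS0P hx0, hx⟩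
  have out : ∀ C : Set X, (C ∩ S1).Nonempty → (C \ P).Nonempty :=
    fun C ⟨x, hx, hx1⟩ => ⟨x, hx, hV1P hx1.2⟩
  refine no_three_arms hX hP hPc k1 k2 k3 d1 d2 d3 (meet _ a1) (meet _ a2) (meet _ a3)
    (out _ b1) (out _ b2) (out _ b3) ?_ ?_ ?_
  all_goals
    rw [Set.disjoint_left]
    intro x hx hx'
  · have u := (s1 hx).2
    have v := (s2 hx').2
    have z := hne x (s1 hx).1
    simp only [mem_preimage, mem_compl_iff, Complex.mem_slitPlane_iff] at u v
    generalize h0 x / h1 x = y at u v z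
    apply z
    simp at u v
    exact Complex.ext v.2 u.2
  · have u := (s1 hx).2
    have v := (s3 hx').2
    have z := hne x (s1 hx).1
    simp only [mem_preimage, mem_compl_iff, Complex.mem_slitPlane_iff] at u v
    generalize h0 x / h1 x = y at u v z
    apply z
    simp at u v
    exact Complex.ext v.2 u.2
  · have u := (s2 hx).2
    have v := (s3 hx').2
    have z := hne x (s2 hx).1
    simp only [mem_preimage, mem_compl_iff, Complex.mem_slitPlane_iff] at u v
    generalize h0 x / h1 x = y at u v z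
    apply z
    simp at u v
    exact Complex.ext u.2 (le_antisymm v.1 u.1)

end Pool.Agent.P.MP_892330_gt
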